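import Pool.Agent.Y850.SH.Grow

set_option autoImplicit false

/-!
# The 1- and 2-neighbourhoods leave almost all of the entropy of a sparse random regular graph

Full answer (yes, both parts) to MP_c07d40_pr in a stronger form. The definitions `Reg`, `nbhd`,
`NbhdIso`, `Reconstructable` and `regProb` are in `Pool/Agent/H336R3/ShotDefs.lean`, the definition
of `ManyTwins` is in `Pool/Agent/Y850/SH/Ent.lean`.
-/

namespace Pool.Agent.Results.MP_c07d40_pr.NonisomorphicTwins

open Filter Topology Pool.Agent.H336R3.Shot Pool.Agent.Y850.SH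

/-- (a) The question: for every fixed `ε > 0` and all sequences `n k → ∞`, `d k` with `n k * d k`
even, the random `d`-regular graph on `n` vertices is a.a.s. not reconstructable from its
`1`-neighbourhoods if `n^ε ≤ d ≤ n^(1/2-ε)`, and not from its `2`-neighbourhoods if
`n^ε ≤ d ≤ n^(1/4-ε)`.

(b) For every fixed radius `r ≥ 1`, all sequences `n → ∞`, `d` with `n d` even and
`d^(2r) = o(n)`: for every `0 < η < 1` with `η d ≥ 256` there are a.a.s. at least
`(number of d-regular graphs on n vertices)^(1-η)` pairwise non-isomorphic `d`-regular graphs on the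
same vertex set in which every vertex has the same rooted `r`-neighbourhood as in the random graph;
if `d ≥ 2560` there are a.a.s. at least `n^(nd/40)` of them; if `d ≥ 256`, the random graph is
a.a.s. not reconstructable from its `r`-neighbourhoods.

(c) An explicit bound for all `n`, `d`, `r`. -/
theorem result :
    (∀ ε : ℝ, 0 < ε → ∀ n d : ℕ → ℕ, Tendsto n atTop atTop →
      (∀ᶠ k in atTop, Even (n k * d k)) →
      ((∀ᶠ k in atTop, (n k : ℝ) ^ ε ≤ d k ∧ (d k : ℝ) ≤ (n k : ℝ) ^ (1 / 2 - ε)) →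
        Tendsto (fun k => regProb (n k) (d k) (fun G => ¬ Reconstructable 1 G)) atTop (𝓝 1)) ∧
      ((∀ᶠ k in atTop, (n k : ℝ) ^ ε ≤ d k ∧ (d k : ℝ) ≤ (n k : ℝ) ^ (1 / 4 - ε)) →
        Tendsto (fun k => regProb (n k) (d k) (fun G => ¬ Reconstructable 2 G)) atTop (𝓝 1))) ∧
    (∀ r : ℕ, 1 ≤ r → ∀ n d : ℕ → ℕ, Tendsto n atTop atTop →
      (∀ᶠ k in atTop, Even (n k * d k)) →
      Tendsto (fun k => (d k : ℝ) ^ (2 * r) / (n k : ℝ)) atTop (𝓝 0) →
      (∀ η : ℝ, 0 < η → η < 1 → (∀ᶠ k in atTop, 256 ≤ η * (d k : ℝ)) →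
        Tendsto (fun k => regProb (n k) (d k) (fun G => ManyTwins r (d k) G
          (({K : SimpleGraph (Fin (n k)) | Reg K (d k)}.ncard : ℝ) ^ (1 - η)))) atTop (𝓝 1)) ∧
      ((∀ᶠ k in atTop, 2560 ≤ d k) →
        Tendsto (fun k => regProb (n k) (d k) (fun G => ManyTwins r (d k) G
          ((n k : ℝ) ^ ((n k : ℝ) * (d k : ℝ) / 40)))) atTop (𝓝 1)) ∧
      ((∀ᶠ k in atTop, 256 ≤ d k) →
        Tendsto (fun k => regProb (n k) (d k) (fun G => ¬ Reconstructable r G)) atTop (𝓝 1))) ∧
    (∀ n d r : ℕ, ∀ η : ℝ, 0 < η → η ≤ 1 → 1 ≤ r → 256 ≤ η * (d : ℝ) → d ^ (2 * r) ≤ n →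
      Even (n * d) →
      regProb n d (fun G => ¬ ManyTwins r d G
          (({K : SimpleGraph (Fin n) | Reg K d}.ncard : ℝ) ^ (1 - η))) ≤
        13824 * ((r : ℝ) ^ 4 * (6 * r * d) ^ (2 * r) / n) / η + 1 / (n + 1)) := by
  refine ⟨?_, ?_, ?_⟩
  · intro ε hε n d hn hev
    refine ⟨fun h => ?_, fun h => ?_⟩
    · refine not_rec_range (r := 1) le_rfl hε n d hn hev (h.mono fun k hk => hk.1)
        (h.mono fun k hk => ?_)
      have e : (1 : ℝ) / (2 * ((1 : ℕ) : ℝ)) - ε = 1 / 2 - ε := by norm_num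
      rw [e]; exact hk.2
    · refine not_rec_range (r := 2) (by norm_num) hε n d hn hev (h.mono fun k hk => hk.1)
        (h.mono fun k hk => ?_)
      have e : (1 : ℝ) / (2 * ((2 : ℕ) : ℝ)) - ε = 1 / 4 - ε := by norm_num
      rw [e]; exact hk.2
  · intro r hr n d hn hev hlim
    have hlim' : Tendsto (fun k => 64 * (2 * (r : ℝ) + 1) * (Cst r : ℝ) *
        ((d k : ℝ) ^ (2 * r) / (n k : ℝ))) atTop (𝓝 0) := by
      have h := hlim.const_mul (64 * (2 * (r : ℝ) + 1) * (Cst r : ℝ))
      rwa [mul_zero] at h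
    refine ⟨fun η hη hη1 hd => ?_, fun hd => ?_, fun hd => ?_⟩
    · have h := many_tendsto hη hη1 n d (fun _ => r) hn hev hd
        (Eventually.of_forall fun _ => hr) hlim'
      simp only [RG_card_eq] at h
      exact h
    · exact many_explicit n d (fun _ => r) hn hev hd (Eventually.of_forall fun _ => hr) hlim'
    · exact not_rec_tendsto hr n d hn hev hd hlim
  · intro n d r η hη hη1 hr hd hdn he
    have h := few_le hη hη1 hr hd hdn he
    simp only [RG_card_eq] at h
    exact h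

end Pool.Agent.Results.MP_c07d40_pr.NonisomorphicTwins
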